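import Mathlib
import Pool.Agent.Q168.Circ

/-! Exponential Riesz bases for `½(μ_t × δ₀ + δ₀ × μ_t)`, for every real `t`. -/

open MeasureTheory Set Filter Complex AddCircle
open scoped Real ENNReal NNReal

noncomputable section

namespace Pool.Agent.Results.MP_1d4ba1_an.OverlappingRieszBasis

open Pool.Agent.Q168.Riesz Pool.Agent.Q168.Poly Pool.Agent.Q168.Circ

/-- The exponential `e_{a,b}(x,y) = e^{2πi(ax+by)}`. -/
def ex (l z : ℝ × ℝ) : ℂ := cexp ((2 * π * (l.1 * z.1 + l.2 * z.2) : ℝ) * I)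

/-- `μ_t`: Lebesgue measure restricted to `[t,t+1]` -/
def mu (t : ℝ) : Measure ℝ := volume.restrict (Icc t (t + 1))

/-- `ρ_t = ½ (μ_t × δ₀ + δ₀ × μ_t)` -/
def rho (t : ℝ) : Measure (ℝ × ℝ) :=
  (1 / 2 : ℝ≥0) • ((mu t).prod (Measure.dirac 0) + (Measure.dirac 0).prod (mu t))

/-! ### Pointwise facts -/

/-- `e^{2πis}` -/
def ee (s : ℝ) : ℂ := cexp ((2 * π * s : ℝ) * I)

lemma ee_add (a b : ℝ) : ee (a + b) = ee a * ee b := by
  unfold ee
  rw [← Complex.exp_add]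
  congr 1
  push_cast
  ring

lemma ee_zero : ee 0 = 1 := by
  unfold ee
  simp

lemma ee_mul_neg (a : ℝ) : ee a * ee (-a) = 1 := by
  rw [← ee_add, add_neg_cancel, ee_zero]

lemma norm_ee (a : ℝ) : ‖ee a‖ = 1 := Complex.norm_exp_ofReal_mul_I _

lemma ee_eq (a : ℝ) : ee a = Real.cos (2 * π * a) + Real.sin (2 * π * a) * I := by
  unfold ee
  rw [Complex.exp_mul_I]
  simp

lemma rep_half (t : ℝ) (x : Cir) :
    (rep t x ≤ t + 1 / 2 ∧ rep t (x + hf) = rep t x + 1 / 2 ∧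
      rep (2 * t) ((2 : ℤ) • x) = 2 * rep t x) ∨
    (t + 1 / 2 < rep t x ∧ rep t (x + hf) = rep t x - 1 / 2 ∧
      rep (2 * t) ((2 : ℤ) • x) = 2 * rep t x - 1) := by
  have hx := rep_mem t x
  have h1 : ((1 : ℝ) : Cir) = 0 := AddCircle.coe_period 1
  rcases le_or_gt (rep t x) (t + 1 / 2) with h | h
  · left
    refine ⟨h, ?_, ?_⟩
    · have h2 : x + hf = ((rep t x + 1 / 2 : ℝ) : Cir) := by
        rw [AddCircle.coe_add, coe_rep]
        rfl
      rw [h2, rep_coe]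
      constructor
      · linarith [hx.1]
      · linarith
    · have h2 : (2 : ℤ) • x = ((2 * rep t x : ℝ) : Cir) := by
        have h3 : (2 * rep t x : ℝ) = (2 : ℤ) • rep t x := by simp
        rw [h3, AddCircle.coe_zsmul, coe_rep]
      rw [h2, rep_coe]
      constructor
      · linarith [hx.1]
      · linarith
  · right
    refine ⟨h, ?_, ?_⟩
    · have h2 : x + hf = ((rep t x - 1 / 2 : ℝ) : Cir) := by
        have h3 : (rep t x - 1 / 2 : ℝ) = rep t x + 1 / 2 - 1 := by ring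
        rw [h3, AddCircle.coe_sub, AddCircle.coe_add, coe_rep, h1, sub_zero]
        rfl
      rw [h2, rep_coe]
      constructor
      · linarith
      · linarith [hx.2]
    · have h2 : (2 : ℤ) • x = ((2 * rep t x - 1 : ℝ) : Cir) := by
        have h3 : (2 * rep t x - 1 : ℝ) = (2 : ℤ) • rep t x - 1 := by simp
        rw [h3, AddCircle.coe_sub, AddCircle.coe_zsmul, coe_rep, h1, sub_zero]
      rw [h2, rep_coe]
      constructor
      · linarith
      · linarith [hx.2]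

/-- `u(x) = e^{2πiβx̂}`, `β = 7/4` -/
def u (t : ℝ) (x : Cir) : ℂ := ee (7 / 4 * rep t x)
/-- the conjugate of `u` -/
def v (t : ℝ) (x : Cir) : ℂ := ee (-(7 / 4 * rep t x))

lemma uv (t : ℝ) (x : Cir) : u t x * v t x = 1 := ee_mul_neg _

lemma measurable_u (t : ℝ) : Measurable (u t) := by
  have := measurable_rep t
  unfold u ee
  fun_prop

lemma measurable_v (t : ℝ) : Measurable (v t) := by
  have := measurable_rep t
  unfold v ee
  fun_prop

lemma measurable_u' (t : ℝ) : Measurable (fun x => u t (x + hf)) :=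
  (measurable_u t).comp (measurable_id.add_const hf)

lemma measurable_v' (t : ℝ) : Measurable (fun x => v t (x + hf)) :=
  (measurable_v t).comp (measurable_id.add_const hf)

/-- the determinant `u(x+½)v(x) - v(x+½)u(x) = ±2i sin πβ` -/
def det (t : ℝ) (x : Cir) : ℂ := u t (x + hf) * v t x - v t (x + hf) * u t x

lemma det_hf (t : ℝ) (x : Cir) : det t (x + hf) = -det t x := by
  unfold det
  rw [add_assoc, hf_add, add_zero]
  ring

lemma sin_seven : Real.sin (7 / 4 * π) = -(√2 / 2) := by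
  have : 7 / 4 * π = -(π / 4) + 2 * π := by ring
  rw [this, Real.sin_add_two_pi, Real.sin_neg, Real.sin_pi_div_four]

lemma cos_seven : Real.cos (7 / 4 * π) = √2 / 2 := by
  have : 7 / 4 * π = -(π / 4) + 2 * π := by ring
  rw [this, Real.cos_add_two_pi, Real.cos_neg, Real.cos_pi_div_four]

lemma det_eq (t : ℝ) (x : Cir) :
    (rep t x ≤ t + 1 / 2 ∧ det t x = -(√2 : ℝ) * I) ∨
    (t + 1 / 2 < rep t x ∧ det t x = (√2 : ℝ) * I) := by
  rcases rep_half t x with ⟨h1, h2, _⟩ | ⟨h1, h2, _⟩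
  · left
    refine ⟨h1, ?_⟩
    unfold det u v
    rw [h2, ← ee_add, ← ee_add]
    have e1 : 7 / 4 * (rep t x + 1 / 2) + -(7 / 4 * rep t x) = 7 / 8 := by ring
    have e2 : -(7 / 4 * (rep t x + 1 / 2)) + 7 / 4 * rep t x = -(7 / 8) := by ring
    rw [e1, e2, ee_eq, ee_eq]
    have e3 : 2 * π * (7 / 8) = 7 / 4 * π := by ring
    have e4 : 2 * π * -(7 / 8) = -(7 / 4 * π) := by ring
    rw [e3, e4, Real.cos_neg, Real.sin_neg, sin_seven]
    push_cast
    ring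
  · right
    refine ⟨h1, ?_⟩
    unfold det u v
    rw [h2, ← ee_add, ← ee_add]
    have e1 : 7 / 4 * (rep t x - 1 / 2) + -(7 / 4 * rep t x) = -(7 / 8) := by ring
    have e2 : -(7 / 4 * (rep t x - 1 / 2)) + 7 / 4 * rep t x = 7 / 8 := by ring
    rw [e1, e2, ee_eq, ee_eq]
    have e3 : 2 * π * (7 / 8) = 7 / 4 * π := by ring
    have e4 : 2 * π * -(7 / 8) = -(7 / 4 * π) := by ring
    rw [e3, e4, Real.cos_neg, Real.sin_neg, sin_seven]
    push_cast
    ring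

lemma norm_det (t : ℝ) (x : Cir) : ‖det t x‖ = √2 := by
  rcases det_eq t x with ⟨_, h⟩ | ⟨_, h⟩ <;> rw [h] <;>
    simp [abs_of_nonneg (Real.sqrt_nonneg 2)]

lemma det_ne (t : ℝ) (x : Cir) : det t x ≠ 0 := by
  rw [← norm_ne_zero_iff, norm_det]
  positivity

lemma one_le_sqrt2 : (1 : ℝ) ≤ √2 := by
  rw [Real.one_le_sqrt]
  norm_num

lemma norm_div_det (t : ℝ) (x : Cir) (z : ℂ) (hz : ‖z‖ = 1) : ‖z / det t x‖ ≤ 1 := by
  rw [norm_div, hz, norm_det, div_le_one (by positivity)]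
  exact one_le_sqrt2

lemma measurable_det (t : ℝ) : Measurable (det t) :=
  ((measurable_u' t).mul (measurable_v t)).sub ((measurable_v' t).mul (measurable_u t))

/-- multiplication by `u` -/
def Bu (t : ℝ) : Bd := ⟨u t, 1, measurable_u t, fun _ => (norm_ee _).le⟩
/-- multiplication by `v` -/
def Bv (t : ℝ) : Bd := ⟨v t, 1, measurable_v t, fun _ => (norm_ee _).le⟩
/-- coefficient -/
def a1 (t : ℝ) : Bd := ⟨fun x => u t (x + hf) / det t x, 1,
  (measurable_u' t).div (measurable_det t), fun x => norm_div_det t x _ (norm_ee _)⟩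
/-- coefficient -/
def a2 (t : ℝ) : Bd := ⟨fun x => -u t x / det t x, 1,
  (measurable_u t).neg.div (measurable_det t), fun x => norm_div_det t x _ (by
    rw [norm_neg]; exact norm_ee _)⟩
/-- coefficient -/
def b1 (t : ℝ) : Bd := ⟨fun x => v t (x + hf) / det t x, 1,
  (measurable_v' t).div (measurable_det t), fun x => norm_div_det t x _ (norm_ee _)⟩
/-- coefficient -/
def b2 (t : ℝ) : Bd := ⟨fun x => -v t x / det t x, 1,
  (measurable_v t).neg.div (measurable_det t), fun x => norm_div_det t x _ (by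
    rw [norm_neg]; exact norm_ee _)⟩

lemma norm_mul_one (φ : Bd) (h : φ.C = 1) (g : H) : ‖mul φ g‖ ≤ ‖g‖ := by
  have := norm_mul_le' φ g
  rw [h, one_mul] at this
  exact this

/-- `E = v C₂X - u C₂Y` -/
def E (t : ℝ) (X Y : H) : H := mul (Bv t) (C2 X) - mul (Bu t) (C2 Y)

lemma coe_E (t : ℝ) (X Y : H) : (E t X Y : Cir → ℂ) =ᵐ[hm] fun x =>
    v t x * X ((2 : ℤ) • x) - u t x * Y ((2 : ℤ) • x) := by
  unfold E
  filter_upwards [Lp.coeFn_sub (mul (Bv t) (C2 X)) (mul (Bu t) (C2 Y)), coe_mul (Bv t) (C2 X),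
    coe_mul (Bu t) (C2 Y), coe_comp 2 (by norm_num) X, coe_comp 2 (by norm_num) Y]
    with x h1 h2 h3 h4 h5
  rw [h1, Pi.sub_apply, h2, h3]
  have h6 : (C2 X : Cir → ℂ) x = X ((2 : ℤ) • x) := h4
  have h7 : (C2 Y : Cir → ℂ) x = Y ((2 : ℤ) • x) := h5
  rw [h6, h7]
  rfl

lemma coe_SE (t : ℝ) (X Y : H) : (S (E t X Y) : Cir → ℂ) =ᵐ[hm] fun x =>
    v t (x + hf) * X ((2 : ℤ) • x) - u t (x + hf) * Y ((2 : ℤ) • x) := by
  filter_upwards [coe_trans hf (E t X Y), ae_add hf (coe_E t X Y)] with x h1 h2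
  have h3 : (S (E t X Y) : Cir → ℂ) x = (E t X Y : Cir → ℂ) (x + hf) := h1
  rw [h3, h2, smul_add, two_hf, add_zero]

/-- recovering `X` -/
lemma rec3 (t : ℝ) (X Y : H) : mul (a1 t) (E t X Y) + mul (a2 t) (S (E t X Y)) = C2 X := by
  apply Lp.ext
  filter_upwards [Lp.coeFn_add (mul (a1 t) (E t X Y)) (mul (a2 t) (S (E t X Y))),
    coe_mul (a1 t) (E t X Y), coe_mul (a2 t) (S (E t X Y)), coe_E t X Y, coe_SE t X Y,
    coe_comp 2 (by norm_num) X] with x h1 h2 h3 h4 h5 h6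
  have h7 : (C2 X : Cir → ℂ) x = X ((2 : ℤ) • x) := h6
  rw [h1, Pi.add_apply, h2, h3, h4, h5, h7]
  have hd := det_ne t x
  simp only [a1, a2]
  field_simp
  unfold det
  ring

/-- recovering `Y` -/
lemma rec4 (t : ℝ) (X Y : H) : mul (b1 t) (E t X Y) + mul (b2 t) (S (E t X Y)) = C2 Y := by
  apply Lp.ext
  filter_upwards [Lp.coeFn_add (mul (b1 t) (E t X Y)) (mul (b2 t) (S (E t X Y))),
    coe_mul (b1 t) (E t X Y), coe_mul (b2 t) (S (E t X Y)), coe_E t X Y, coe_SE t X Y,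
    coe_comp 2 (by norm_num) Y] with x h1 h2 h3 h4 h5 h6
  have h7 : (C2 Y : Cir → ℂ) x = Y ((2 : ℤ) • x) := h6
  rw [h1, Pi.add_apply, h2, h3, h4, h5, h7]
  have hd := det_ne t x
  simp only [b1, b2]
  field_simp
  unfold det
  ring

lemma S_mul_add (α α' : Bd) (g : H) (h1 : ∀ x, α.f (x + hf) = α'.f x)
    (h2 : ∀ x, α'.f (x + hf) = α.f x) :
    S (mul α g + mul α' (S g)) = mul α g + mul α' (S g) := by
  apply Lp.ext
  filter_upwards [coe_trans hf (mul α g + mul α' (S g)),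
    ae_add hf (Lp.coeFn_add (mul α g) (mul α' (S g))), ae_add hf (coe_mul α g),
    ae_add hf (coe_mul α' (S g)), ae_add hf (coe_trans hf g), coe_trans hf g,
    Lp.coeFn_add (mul α g) (mul α' (S g)), coe_mul α g, coe_mul α' (S g)]
    with x k1 k2 k3 k4 k5 k6 k7 k8 k9
  have k1' : (S (mul α g + mul α' (S g)) : Cir → ℂ) x =
    (mul α g + mul α' (S g) : H) (x + hf) := k1
  have k5' : (S g : Cir → ℂ) (x + hf) = g (x + hf + hf) := k5
  have k6' : (S g : Cir → ℂ) x = g (x + hf) := k6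
  rw [k1', k2, Pi.add_apply, k3, k4, k5', k7, Pi.add_apply, k8, k9, k6', h1, h2, add_assoc,
    hf_add, add_zero, add_comm]

/-- every `D` is of the form `v C₂X - u C₂Y` -/
lemma split (t : ℝ) (D : H) : ∃ X Y : H, E t X Y = D := by
  obtain ⟨X, hX⟩ := exists_C2 (mul (a1 t) D + mul (a2 t) (S D)) (by
    apply S_mul_add
    · intro x
      simp only [a1, a2]
      rw [add_assoc, hf_add, add_zero, det_hf, div_neg, neg_div]
    · intro x
      simp only [a1, a2]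
      rw [det_hf, neg_div_neg_eq])
  obtain ⟨Y, hY⟩ := exists_C2 (mul (b1 t) D + mul (b2 t) (S D)) (by
    apply S_mul_add
    · intro x
      simp only [b1, b2]
      rw [add_assoc, hf_add, add_zero, det_hf, div_neg, neg_div]
    · intro x
      simp only [b1, b2]
      rw [det_hf, neg_div_neg_eq])
  refine ⟨X, Y, ?_⟩
  unfold E
  rw [hX, hY]
  apply Lp.ext
  filter_upwards [Lp.coeFn_sub (mul (Bv t) (mul (a1 t) D + mul (a2 t) (S D)))
      (mul (Bu t) (mul (b1 t) D + mul (b2 t) (S D))),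
    coe_mul (Bv t) (mul (a1 t) D + mul (a2 t) (S D)),
    coe_mul (Bu t) (mul (b1 t) D + mul (b2 t) (S D)),
    Lp.coeFn_add (mul (a1 t) D) (mul (a2 t) (S D)),
    Lp.coeFn_add (mul (b1 t) D) (mul (b2 t) (S D)),
    coe_mul (a1 t) D, coe_mul (a2 t) (S D), coe_mul (b1 t) D, coe_mul (b2 t) (S D)]
    with x k1 k2 k3 k4 k5 k6 k7 k8 k9
  rw [k1, Pi.sub_apply, k2, k3, k4, k5, Pi.add_apply, Pi.add_apply, k6, k7, k8, k9]
  have hd := det_ne t x
  simp only [a1, a2, b1, b2, Bu, Bv]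
  field_simp
  unfold det
  ring

/-! ### The contraction -/

lemma cos_ne : Real.cos (7 / 8 * π) ≠ 0 := by
  intro h
  have h1 := Real.cos_sq (7 / 8 * π)
  rw [h] at h1
  have h2 : 2 * (7 / 8 * π) = 7 / 4 * π := by ring
  rw [h2, cos_seven] at h1
  have : 0 ≤ √2 := Real.sqrt_nonneg 2
  norm_num at h1
  linarith

lemma cos_sq_val : Real.cos (7 / 8 * π) ^ 2 = 1 / 2 + √2 / 4 := by
  rw [Real.cos_sq]
  have h2 : 2 * (7 / 8 * π) = 7 / 4 * π := by ring
  rw [h2, cos_seven]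
  ring

/-- `κ(y) = cos(πβ(ŷ+½))/cos(πβ/2)`, `ŷ ∈ (2t, 2t+1]` -/
def kap (t : ℝ) : Bd where
  f y := ((Real.cos (7 / 4 * π * (rep (2 * t) y + 1 / 2)) / Real.cos (7 / 8 * π) : ℝ) : ℂ)
  C := |Real.cos (7 / 8 * π)|⁻¹
  meas := by
    have := measurable_rep (2 * t)
    fun_prop
  bound y := by
    rw [Complex.norm_real, Real.norm_eq_abs, abs_div, div_eq_mul_inv]
    have h1 := Real.abs_cos_le_one (7 / 4 * π * (rep (2 * t) y + 1 / 2))
    have h2 : 0 ≤ |Real.cos (7 / 8 * π)|⁻¹ := by positivity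
    nlinarith

lemma cos_seven_six : Real.cos (7 / 6 * π) = -(√3 / 2) := by
  have : 7 / 6 * π = π / 6 + π := by ring
  rw [this, Real.cos_add_pi, Real.cos_pi_div_six]

/-- three equally spaced values -/
lemma three_cos (z : ℝ) :
    Real.cos (7 / 4 * π * (z + 1 / 2)) ^ 2 + Real.cos (7 / 4 * π * (z + 1 / 3 + 1 / 2)) ^ 2 +
      Real.cos (7 / 4 * π * (z + 2 / 3 + 1 / 2)) ^ 2 ≤ (2 + √3) / 2 := by
  rw [Real.cos_sq, Real.cos_sq, Real.cos_sq]
  set B : ℝ := 2 * (7 / 4 * π * (z + 1 / 3 + 1 / 2)) with hB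
  have e1 : 2 * (7 / 4 * π * (z + 1 / 2)) = B - 7 / 6 * π := by rw [hB]; ring
  have e2 : 2 * (7 / 4 * π * (z + 2 / 3 + 1 / 2)) = B + 7 / 6 * π := by rw [hB]; ring
  rw [e1, e2, Real.cos_sub, Real.cos_add, cos_seven_six]
  have h1 := Real.neg_one_le_cos B
  have h3 : (1 : ℝ) ≤ √3 := by
    rw [Real.one_le_sqrt]
    norm_num
  nlinarith

lemma contraction_sum (t : ℝ) (x : Cir) :
    ∑ j ∈ Finset.range 3, ‖(kap t).f (x + ((j / (3 : ℕ) : ℝ) : Cir))‖ ^ 2 ≤
      3 / 4 * (3 : ℕ) := by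
  have hx := rep_mem (2 * t) x
  set z := rep (2 * t) x with hz
  have h1 : ((1 : ℝ) : Cir) = 0 := AddCircle.coe_period 1
  have hadd : ∀ s : ℝ, x + ((s : ℝ) : Cir) = ((z + s : ℝ) : Cir) := by
    intro s
    rw [AddCircle.coe_add, hz, coe_rep]
  have hsub : ∀ s : ℝ, x + ((s : ℝ) : Cir) = ((z + s - 1 : ℝ) : Cir) := by
    intro s
    rw [AddCircle.coe_sub, AddCircle.coe_add, hz, coe_rep, h1, sub_zero]
  have hval : ∀ (y : Cir) (r : ℝ), rep (2 * t) y = r → ‖(kap t).f y‖ ^ 2 =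
      Real.cos (7 / 4 * π * (r + 1 / 2)) ^ 2 / (1 / 2 + √2 / 4) := by
    intro y r hy
    unfold kap
    simp only
    rw [Complex.norm_real, Real.norm_eq_abs, sq_abs, hy, div_pow, cos_sq_val]
  have hs2 : (7 / 5 : ℝ) ≤ √2 := Real.le_sqrt_of_sq_le (by norm_num)
  have hs3 : √3 ≤ 1.7321 := by
    rw [Real.sqrt_le_left (by norm_num)]
    norm_num
  have hs2' : (1.4142 : ℝ) ≤ √2 := Real.le_sqrt_of_sq_le (by norm_num)
  have fin : ∀ r0 r1 r2 w : ℝ, Real.cos (7 / 4 * π * (r0 + 1 / 2)) ^ 2 +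
      Real.cos (7 / 4 * π * (r1 + 1 / 2)) ^ 2 + Real.cos (7 / 4 * π * (r2 + 1 / 2)) ^ 2 =
      Real.cos (7 / 4 * π * (w + 1 / 2)) ^ 2 + Real.cos (7 / 4 * π * (w + 1 / 3 + 1 / 2)) ^ 2 +
      Real.cos (7 / 4 * π * (w + 2 / 3 + 1 / 2)) ^ 2 →
      rep (2 * t) (x + (((0 : ℕ) / (3 : ℕ) : ℝ) : Cir)) = r0 →
      rep (2 * t) (x + (((1 : ℕ) / (3 : ℕ) : ℝ) : Cir)) = r1 →
      rep (2 * t) (x + (((2 : ℕ) / (3 : ℕ) : ℝ) : Cir)) = r2 →
      ∑ j ∈ Finset.range 3, ‖(kap t).f (x + ((j / (3 : ℕ) : ℝ) : Cir))‖ ^ 2 ≤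
      3 / 4 * (3 : ℕ) := by
    intro r0 r1 r2 w hw q0 q1 q2
    rw [Finset.sum_range_succ, Finset.sum_range_succ, Finset.sum_range_one, hval _ _ q0,
      hval _ _ q1, hval _ _ q2, ← add_div, ← add_div, hw, div_le_iff₀ (by positivity)]
    refine (three_cos w).trans ?_
    push_cast
    linarith
  have e0 : ∀ s : ℝ, 2 * t < z + s → z + s ≤ 2 * t + 1 → rep (2 * t) (x + ((s : ℝ) : Cir)) = z + s := by
    intro s ha hb
    rw [hadd, rep_coe (2 * t) ⟨ha, hb⟩]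
  have e1 : ∀ s : ℝ, 2 * t + 1 < z + s → z + s ≤ 2 * t + 2 →
      rep (2 * t) (x + ((s : ℝ) : Cir)) = z + s - 1 := by
    intro s ha hb
    rw [hsub, rep_coe (2 * t) ⟨by linarith, by linarith⟩]
  have c0 : (((0 : ℕ) / (3 : ℕ) : ℝ)) = 0 := by norm_num
  have c1 : (((1 : ℕ) / (3 : ℕ) : ℝ)) = 1 / 3 := by norm_num
  have c2 : (((2 : ℕ) / (3 : ℕ) : ℝ)) = 2 / 3 := by norm_num
  rcases le_or_gt z (2 * t + 1 / 3) with hA | hA
  · refine fin (z + 0) (z + 1 / 3) (z + 2 / 3) z (by rw [add_zero]) ?_ ?_ ?_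
    · rw [c0]; exact e0 0 (by linarith [hx.1]) (by linarith)
    · rw [c1]; exact e0 _ (by linarith [hx.1]) (by linarith)
    · rw [c2]; exact e0 _ (by linarith [hx.1]) (by linarith)
  · rcases le_or_gt z (2 * t + 2 / 3) with hB | hB
    · refine fin (z + 0) (z + 1 / 3) (z + 2 / 3 - 1) (z - 1 / 3) ?_ ?_ ?_ ?_
      · have g1 : z + 2 / 3 - 1 = z - 1 / 3 := by ring
        have g2 : z - 1 / 3 + 1 / 3 = z := by ring
        have g3 : z - 1 / 3 + 2 / 3 = z + 1 / 3 := by ring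
        rw [g1, g2, g3, add_zero]
        ring
      · rw [c0]; exact e0 0 (by linarith [hx.1]) (by linarith)
      · rw [c1]; exact e0 _ (by linarith [hx.1]) (by linarith)
      · rw [c2]; exact e1 _ (by linarith [hx.1]) (by linarith)
    · refine fin (z + 0) (z + 1 / 3 - 1) (z + 2 / 3 - 1) (z - 2 / 3) ?_ ?_ ?_ ?_
      · have g1 : z + 2 / 3 - 1 = z - 1 / 3 := by ring
        have g2 : z - 2 / 3 + 1 / 3 = z - 1 / 3 := by ring
        have g3 : z - 2 / 3 + 2 / 3 = z := by ring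
        have g4 : z + 1 / 3 - 1 = z - 2 / 3 := by ring
        rw [g1, g2, g3, g4, add_zero]
        ring
      · rw [c0]; exact e0 0 (by linarith [hx.1]) (by linarith [hx.2])
      · rw [c1]; exact e1 _ (by linarith [hx.1]) (by linarith [hx.2])
      · rw [c2]; exact e1 _ (by linarith [hx.1]) (by linarith [hx.2])

/-- composition with `x ↦ 3x` -/
def C3 : H →ₗᵢ[ℂ] H := comp ((3 : ℕ) : ℤ) (by norm_num)

/-- the contraction -/
def Kc (t : ℝ) : H →ₗ[ℂ] H := (mul (kap t)).comp C3.toLinearMap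

lemma norm_Kc (t : ℝ) (g : H) : ‖Kc t g‖ ≤ 7 / 8 * ‖g‖ := by
  have h := norm_mul_comp_sq_le (kap t) 3 (by norm_num) (3 / 4) (contraction_sum t) g
  have h2 : ‖Kc t g‖ ^ 2 ≤ 3 / 4 * ‖g‖ ^ 2 := h
  apply le_of_sq_le_sq _ (by positivity)
  nlinarith [sq_nonneg ‖g‖]

/-- composition with `x ↦ 6x` -/
def C6 : H →ₗᵢ[ℂ] H := comp 6 (by norm_num)

lemma S_C6 (g : H) : S (C6 g) = C6 g := by
  apply S_comp
  have : (6 : ℤ) • hf = (3 : ℤ) • ((2 : ℤ) • hf) := by rw [smul_smul]; norm_num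
  rw [this, two_hf, smul_zero]

lemma half_angle : 2 * Real.sin (7 / 8 * π) * Real.cos (7 / 8 * π) = -(√2 / 2) := by
  rw [← Real.sin_two_mul]
  have : 2 * (7 / 8 * π) = 7 / 4 * π := by ring
  rw [this, sin_seven]

/-- the relation between the coefficients -/
lemma coeff_rel (t : ℝ) (x : Cir) :
    (b1 t).f x + (b2 t).f x - (a1 t).f x - (a2 t).f x = -(kap t).f ((2 : ℤ) • x) := by
  have hd := det_ne t x
  have hc := cos_ne
  have hcC : (Real.cos (7 / 8 * π) : ℂ) ≠ 0 := by exact_mod_cast hc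
  have hs : 2 * (Real.sin (7 / 8 * π) : ℂ) * (Real.cos (7 / 8 * π) : ℂ) = -((√2 : ℝ) / 2) := by
    have := half_angle
    exact_mod_cast congrArg (fun r : ℝ => (r : ℂ)) this
  simp only [a1, a2, b1, b2, kap]
  rw [← add_div, ← sub_div, ← sub_div, div_eq_iff hd]
  rcases rep_half t x with ⟨h0, h1, h2⟩ | ⟨h0, h1, h2⟩
  · rcases det_eq t x with ⟨_, h3⟩ | ⟨h3', _⟩
    swap
    · exact absurd h0 (not_le.2 h3')
    rw [h3, h2]
    unfold u v
    rw [h1]
    set z := rep t x with hz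
    rw [ee_eq, ee_eq, ee_eq, ee_eq]
    have e1 : 2 * π * -(7 / 4 * (z + 1 / 2)) = -(7 / 4 * π * (2 * z + 1 / 2) + 7 / 8 * π) := by ring
    have e2 : 2 * π * -(7 / 4 * z) = -(7 / 4 * π * (2 * z + 1 / 2) - 7 / 8 * π) := by ring
    have e3 : 2 * π * (7 / 4 * (z + 1 / 2)) = 7 / 4 * π * (2 * z + 1 / 2) + 7 / 8 * π := by ring
    have e4 : 2 * π * (7 / 4 * z) = 7 / 4 * π * (2 * z + 1 / 2) - 7 / 8 * π := by ring
    rw [e1, e2, e3, e4]
    set θ := 7 / 4 * π * (2 * z + 1 / 2) with hθ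
    rw [Real.cos_neg, Real.cos_neg, Real.sin_neg, Real.sin_neg, Real.sin_add, Real.sin_sub]
    clear_value θ
    generalize Real.cos (7 / 8 * π) = C at *
    generalize Real.sin (7 / 8 * π) = s at *
    generalize Real.cos θ = cθ at *
    generalize Real.sin θ = sθ at *
    push_cast
    field_simp
    linear_combination (-2 * (cθ : ℂ) * I) * hs
  · rcases det_eq t x with ⟨h3', _⟩ | ⟨_, h3⟩
    · exact absurd h3' (not_le.2 h0)
    rw [h3, h2]
    unfold u v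
    rw [h1]
    set z := rep t x with hz
    rw [ee_eq, ee_eq, ee_eq, ee_eq]
    have e1 : 2 * π * -(7 / 4 * (z - 1 / 2)) =
        -(7 / 4 * π * (2 * z - 1 + 1 / 2) - 7 / 8 * π) := by ring
    have e2 : 2 * π * -(7 / 4 * z) = -(7 / 4 * π * (2 * z - 1 + 1 / 2) + 7 / 8 * π) := by ring
    have e3 : 2 * π * (7 / 4 * (z - 1 / 2)) = 7 / 4 * π * (2 * z - 1 + 1 / 2) - 7 / 8 * π := by ring
    have e4 : 2 * π * (7 / 4 * z) = 7 / 4 * π * (2 * z - 1 + 1 / 2) + 7 / 8 * π := by ring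
    rw [e1, e2, e3, e4]
    set θ := 7 / 4 * π * (2 * z - 1 + 1 / 2) with hθ
    rw [Real.cos_neg, Real.cos_neg, Real.sin_neg, Real.sin_neg, Real.sin_add, Real.sin_sub]
    clear_value θ
    generalize Real.cos (7 / 8 * π) = C at *
    generalize Real.sin (7 / 8 * π) = s at *
    generalize Real.cos θ = cθ at *
    generalize Real.sin θ = sθ at *
    push_cast
    field_simp
    linear_combination (2 * (cθ : ℂ) * I) * hs

/-- `(Σ coefficients) C₆ h = -C₂(κ C₃ h)` -/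
lemma C2_Kc (t : ℝ) (h : H) :
    mul (b1 t) (C6 h) + mul (b2 t) (C6 h) - mul (a1 t) (C6 h) - mul (a2 t) (C6 h) =
      -C2 (Kc t h) := by
  apply Lp.ext
  have m1 := ae_zsmul 2 (by norm_num) (coe_mul (kap t) (C3 h))
  have m2 := ae_zsmul 2 (by norm_num) (coe_comp ((3 : ℕ) : ℤ) (by norm_num) h)
  filter_upwards [Lp.coeFn_sub (mul (b1 t) (C6 h) + mul (b2 t) (C6 h) - mul (a1 t) (C6 h))
      (mul (a2 t) (C6 h)),
    Lp.coeFn_sub (mul (b1 t) (C6 h) + mul (b2 t) (C6 h)) (mul (a1 t) (C6 h)),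
    Lp.coeFn_add (mul (b1 t) (C6 h)) (mul (b2 t) (C6 h)),
    coe_mul (b1 t) (C6 h), coe_mul (b2 t) (C6 h), coe_mul (a1 t) (C6 h), coe_mul (a2 t) (C6 h),
    coe_comp 6 (by norm_num) h, Lp.coeFn_neg (C2 (Kc t h)), coe_comp 2 (by norm_num) (Kc t h),
    m1, m2] with x k1 k2 k3 k4 k5 k6 k7 k8 k9 k10 k11 k12
  have l8 : (C6 h : Cir → ℂ) x = h ((6 : ℤ) • x) := k8
  have l10 : (C2 (Kc t h) : Cir → ℂ) x = (Kc t h : Cir → ℂ) ((2 : ℤ) • x) := k10
  have l11 : (Kc t h : Cir → ℂ) ((2 : ℤ) • x) =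
    (kap t).f ((2 : ℤ) • x) * (C3 h : Cir → ℂ) ((2 : ℤ) • x) := k11
  have l12 : (C3 h : Cir → ℂ) ((2 : ℤ) • x) = h (((3 : ℕ) : ℤ) • ((2 : ℤ) • x)) := k12
  have l13 : ((3 : ℕ) : ℤ) • ((2 : ℤ) • x) = (6 : ℤ) • x := by
    rw [smul_smul]
    norm_num
  rw [k1, Pi.sub_apply, k2, Pi.sub_apply, k3, Pi.add_apply, k4, k5, k6, k7, k9, Pi.neg_apply,
    l10, l11, l12, l13, l8]
  linear_combination (h ((6 : ℤ) • x)) * coeff_rel t x

/-! ### The synthesis operator -/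

/-- the synthesis operator -/
def T (t : ℝ) : (Fin 3 → H) →ₗ[ℂ] (Fin 2 → H) where
  toFun w := ![w 0 + mul (Bv t) (C2 (w 1)) + C6 (w 2), w 0 + C6 (w 1) + mul (Bu t) (C2 (w 2))]
  map_add' w z := by
    funext i
    fin_cases i <;> simp [map_add] <;> abel
  map_smul' a w := by
    funext i
    fin_cases i <;> simp [map_smul, smul_add]

lemma T0 (t : ℝ) (w : Fin 3 → H) :
    T t w 0 = w 0 + mul (Bv t) (C2 (w 1)) + C6 (w 2) := rfl
lemma T1 (t : ℝ) (w : Fin 3 → H) :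
    T t w 1 = w 0 + C6 (w 1) + mul (Bu t) (C2 (w 2)) := rfl

lemma T_diff (t : ℝ) (w : Fin 3 → H) :
    T t w 0 - T t w 1 = E t (w 1) (w 2) + C6 (w 2 - w 1) := by
  rw [T0, T1, E, map_sub]
  abel

/-- the main estimate -/
lemma main_bound (t : ℝ) (X Y D : H) (hD : D = E t X Y + C6 (Y - X)) :
    ‖X‖ ≤ 66 * ‖D‖ ∧ ‖Y‖ ≤ 66 * ‖D‖ := by
  obtain ⟨h, hh⟩ : ∃ h, h = Y - X := ⟨_, rfl⟩
  rw [← hh] at hD
  have hE : E t X Y = D - C6 h := by rw [hD]; abel
  have r3 := rec3 t X Y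
  have r4 := rec4 t X Y
  rw [hE] at r3 r4
  have e1 : C2 h = (mul (b1 t) D + mul (b2 t) (S D)) - (mul (a1 t) D + mul (a2 t) (S D)) +
      C2 (Kc t h) := by
    have hk := C2_Kc t h
    have hk2 : C2 (Kc t h) = -(mul (b1 t) (C6 h) + mul (b2 t) (C6 h) - mul (a1 t) (C6 h) -
      mul (a2 t) (C6 h)) := by rw [hk, neg_neg]
    have e0 : C2 h = C2 Y - C2 X := by rw [hh, map_sub]
    rw [e0, hk2, ← r3, ← r4, map_sub S, S_C6]
    simp only [map_sub]
    abel
  have n1 : ‖mul (b1 t) D‖ ≤ ‖D‖ := norm_mul_one _ rfl _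
  have n2 : ‖mul (b2 t) (S D)‖ ≤ ‖D‖ := (norm_mul_one _ rfl _).trans (S.norm_map D).le
  have n3 : ‖mul (a1 t) D‖ ≤ ‖D‖ := norm_mul_one _ rfl _
  have n4 : ‖mul (a2 t) (S D)‖ ≤ ‖D‖ := (norm_mul_one _ rfl _).trans (S.norm_map D).le
  have n5 : ‖C2 (Kc t h)‖ ≤ 7 / 8 * ‖h‖ := (C2.norm_map _).le.trans (norm_Kc t h)
  have n6 : ‖h‖ ≤ 4 * ‖D‖ + 7 / 8 * ‖h‖ := by
    have g0 : ‖h‖ = ‖(mul (b1 t) D + mul (b2 t) (S D)) - (mul (a1 t) D + mul (a2 t) (S D)) +
      C2 (Kc t h)‖ := by rw [← e1, C2.norm_map]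
    have g1 := norm_add_le ((mul (b1 t) D + mul (b2 t) (S D)) - (mul (a1 t) D + mul (a2 t) (S D)))
      (C2 (Kc t h))
    have g2 := norm_sub_le (mul (b1 t) D + mul (b2 t) (S D)) (mul (a1 t) D + mul (a2 t) (S D))
    have g3 := norm_add_le (mul (b1 t) D) (mul (b2 t) (S D))
    have g4 := norm_add_le (mul (a1 t) D) (mul (a2 t) (S D))
    linarith
  have n7 : ‖h‖ ≤ 32 * ‖D‖ := by linarith
  have n8 : ‖D - C6 h‖ ≤ 33 * ‖D‖ := by
    refine (norm_sub_le _ _).trans ?_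
    rw [C6.norm_map]
    linarith
  constructor
  · rw [← C2.norm_map X, ← r3]
    refine (norm_add_le _ _).trans ?_
    have g1 := norm_mul_one (a1 t) rfl (D - C6 h)
    have g2 := norm_mul_one (a2 t) rfl (S (D - C6 h))
    rw [S.norm_map] at g2
    linarith
  · rw [← C2.norm_map Y, ← r4]
    refine (norm_add_le _ _).trans ?_
    have g1 := norm_mul_one (b1 t) rfl (D - C6 h)
    have g2 := norm_mul_one (b2 t) rfl (S (D - C6 h))
    rw [S.norm_map] at g2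
    linarith

lemma arith (x y z a b : ℝ) (hx0 : 0 ≤ x) (hy0 : 0 ≤ y) (hz0 : 0 ≤ z)
    (hx : x ≤ 133 * (a + b)) (hy : y ≤ 66 * (a + b)) (hz : z ≤ 66 * (a + b)) :
    (1 / 60000) * (x ^ 2 + y ^ 2 + z ^ 2) ≤ a ^ 2 + b ^ 2 := by
  have c1 := pow_le_pow_left₀ hx0 hx 2
  have c2 := pow_le_pow_left₀ hy0 hy 2
  have c3 := pow_le_pow_left₀ hz0 hz 2
  nlinarith [sq_nonneg (a - b)]

lemma lower (t : ℝ) (w : Fin 3 → H) :
    (1 / 60000) * ∑ j, ‖w j‖ ^ 2 ≤ ∑ i, ‖T t w i‖ ^ 2 := by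
  obtain ⟨hX, hY⟩ := main_bound t (w 1) (w 2) (T t w 0 - T t w 1) (T_diff t w)
  have hD := norm_sub_le (T t w 0) (T t w 1)
  have hW : ‖w 0‖ ≤ 133 * (‖T t w 0‖ + ‖T t w 1‖) := by
    have h0 : w 0 = T t w 0 - mul (Bv t) (C2 (w 1)) - C6 (w 2) := by
      rw [T0]; abel
    have h1 : ‖w 0‖ ≤ ‖T t w 0‖ + ‖w 1‖ + ‖w 2‖ := by
      conv_lhs => rw [h0]
      have g1 := norm_sub_le (T t w 0 - mul (Bv t) (C2 (w 1))) (C6 (w 2))
      have g2 := norm_sub_le (T t w 0) (mul (Bv t) (C2 (w 1)))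
      have g3 := norm_mul_one (Bv t) rfl (C2 (w 1))
      rw [C2.norm_map] at g3
      rw [C6.norm_map] at g1
      linarith
    have := norm_nonneg (T t w 1)
    linarith
  rw [Fin.sum_univ_three, Fin.sum_univ_two]
  exact arith _ _ _ _ _ (norm_nonneg _) (norm_nonneg _) (norm_nonneg _) hW
    (hX.trans (by linarith)) (hY.trans (by linarith))

lemma upper (t : ℝ) (w : Fin 3 → H) : ∑ i, ‖T t w i‖ ^ 2 ≤ 6 * ∑ j, ‖w j‖ ^ 2 := by
  have h0 : ‖T t w 0‖ ≤ ‖w 0‖ + ‖w 1‖ + ‖w 2‖ := by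
    rw [T0]
    have g1 := norm_add₃_le (a := w 0) (b := mul (Bv t) (C2 (w 1))) (c := C6 (w 2))
    have g3 := norm_mul_one (Bv t) rfl (C2 (w 1))
    rw [C2.norm_map] at g3
    rw [C6.norm_map] at g1
    linarith
  have h1 : ‖T t w 1‖ ≤ ‖w 0‖ + ‖w 1‖ + ‖w 2‖ := by
    rw [T1]
    have g1 := norm_add₃_le (a := w 0) (b := C6 (w 1)) (c := mul (Bu t) (C2 (w 2)))
    have g3 := norm_mul_one (Bu t) rfl (C2 (w 2))
    rw [C2.norm_map] at g3
    rw [C6.norm_map] at g1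
    linarith
  have c0 := pow_le_pow_left₀ (norm_nonneg _) h0 2
  have c1 := pow_le_pow_left₀ (norm_nonneg _) h1 2
  have c2 : (‖w 0‖ + ‖w 1‖ + ‖w 2‖) ^ 2 ≤ 3 * (‖w 0‖ ^ 2 + ‖w 1‖ ^ 2 + ‖w 2‖ ^ 2) := by
    nlinarith [sq_nonneg (‖w 0‖ - ‖w 1‖), sq_nonneg (‖w 0‖ - ‖w 2‖), sq_nonneg (‖w 1‖ - ‖w 2‖)]
  rw [Fin.sum_univ_three, Fin.sum_univ_two]
  linarith

lemma surj (t : ℝ) : Function.Surjective (T t) := by
  intro F
  set D := F 0 - F 1 with hD
  obtain ⟨p3, p4, hp⟩ := split t D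
  obtain ⟨h, hh⟩ := exists_solution (-Kc t) (7 / 8) (by norm_num) (by norm_num) (by
    intro f
    rw [LinearMap.neg_apply, norm_neg]
    exact norm_Kc t f) (p4 - p3)
  rw [LinearMap.neg_apply, ← sub_eq_add_neg] at hh
  obtain ⟨q3, q4, hq⟩ := split t (C6 h)
  have r3 := rec3 t q3 q4
  have r4 := rec4 t q3 q4
  rw [hq, S_C6] at r3 r4
  have e1 : q4 - q3 = -Kc t h := by
    apply C2.injective
    rw [map_sub, map_neg, ← r3, ← r4, ← C2_Kc]
    abel
  have e2 : (p4 - q4) - (p3 - q3) = h := by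
    have : (p4 - q4) - (p3 - q3) = (p4 - p3) - (q4 - q3) := by abel
    rw [this, e1, ← hh]
    abel
  have e3 : E t (p3 - q3) (p4 - q4) = D - C6 h := by
    rw [← hp, ← hq]
    unfold E
    simp only [map_sub]
    abel
  set X := p3 - q3 with hX
  set Y := p4 - q4 with hY
  refine ⟨![F 0 - mul (Bv t) (C2 X) - C6 Y, X, Y], ?_⟩
  have g0 : T t ![F 0 - mul (Bv t) (C2 X) - C6 Y, X, Y] 0 = F 0 := by
    rw [T0]
    simp only [Matrix.cons_val_zero, Matrix.cons_val_one, Matrix.cons_val]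
    abel
  have g1 : T t ![F 0 - mul (Bv t) (C2 X) - C6 Y, X, Y] 0 -
      T t ![F 0 - mul (Bv t) (C2 X) - C6 Y, X, Y] 1 = D := by
    rw [T_diff]
    simp only [Matrix.cons_val_one, Matrix.cons_val_zero, Matrix.cons_val]
    rw [e2, e3]
    abel
  funext i
  fin_cases i
  · exact g0
  · have g2 : T t ![F 0 - mul (Bv t) (C2 X) - C6 Y, X, Y] 1 = F 0 - D := by
      rw [← g1, g0]; abel
    have g3 : T t ![F 0 - mul (Bv t) (C2 X) - C6 Y, X, Y] 1 = F 1 := by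
      rw [g2, hD]; abel
    exact g3

/-! ### The frequencies -/

/-- the frequencies -/
def lam (q : Fin 3 × ℤ) : ℝ × ℝ :=
  ![((q.2 : ℝ), (q.2 : ℝ)), (2 * (q.2 : ℝ) - 7 / 4, 6 * (q.2 : ℝ)),
    (6 * (q.2 : ℝ), 2 * (q.2 : ℝ) + 7 / 4)] q.1

lemma lam_injective : Function.Injective lam := by
  have key : ∀ a b : ℤ, (a : ℝ) ≠ b + 7 / 4 := by
    intro a b h
    have h1 : (4 * a : ℝ) = 4 * b + 7 := by linarith
    have h2 : 4 * a = 4 * b + 7 := by exact_mod_cast h1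
    omega
  have k1 : ∀ a b : ℤ, (a : ℝ) ≠ 2 * b - 7 / 4 := by
    intro a b h
    apply key (2 * b) a
    push_cast
    linarith
  have k2 : ∀ a b : ℤ, (a : ℝ) ≠ 2 * b + 7 / 4 := by
    intro a b h
    apply key a (2 * b)
    push_cast
    linarith
  have k3 : ∀ a b : ℤ, (6 * a : ℝ) ≠ 2 * b - 7 / 4 := by
    intro a b h
    apply k1 (6 * a) b
    push_cast
    linarith
  have k4 : ∀ a b : ℤ, (6 * a : ℝ) ≠ 2 * b + 7 / 4 := by
    intro a b h
    apply k2 (6 * a) b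
    push_cast
    linarith
  rintro ⟨i, n⟩ ⟨j, m⟩ h
  have h1 := congrArg Prod.fst h
  have h2 := congrArg Prod.snd h
  fin_cases i <;> fin_cases j <;> simp only [lam, Fin.zero_eta, Fin.mk_one, Fin.reduceFinMk,
    Matrix.cons_val_zero, Matrix.cons_val_one, Matrix.cons_val] at h1 h2
  · have : n = m := by exact_mod_cast h1
    rw [this]
  · exact absurd h1 (k1 n m)
  · exact absurd h2 (k2 n m)
  · exact absurd h1.symm (k1 m n)
  · have h3 : (n : ℝ) = m := by linarith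
    have : n = m := by exact_mod_cast h3
    rw [this]
  · exact absurd h1.symm (k3 m n)
  · exact absurd h2.symm (k2 m n)
  · exact absurd h1 (k3 n m)
  · have h3 : (n : ℝ) = m := by linarith
    have : n = m := by exact_mod_cast h3
    rw [this]

/-- the two pieces -/
def ga (t : ℝ) (i : Fin 2) (x : Cir) : ℝ × ℝ := ![(rep t x, 0), (0, rep t x)] i

lemma measurable_ga (t : ℝ) (i : Fin 2) : Measurable (ga t i) := by
  have := measurable_rep t
  fin_cases i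
  · exact this.prodMk measurable_const
  · exact measurable_const.prodMk this

lemma measurable_ex (l : ℝ × ℝ) : Measurable (ex l) := by
  unfold ex
  fun_prop

lemma mu_eq (t : ℝ) : mu t = Measure.map (rep t) hm := by
  unfold mu
  rw [map_rep]
  exact (Measure.restrict_congr_set Ioc_ae_eq_Icc).symm

instance (t : ℝ) : IsProbabilityMeasure (mu t) := by
  rw [mu_eq]
  exact Measure.isProbabilityMeasure_map (measurable_rep t).aemeasurable

lemma rho_eq (t : ℝ) : rho t = ∑ i : Fin 2, (1 / 2 : ℝ≥0) • Measure.map (ga t i) hm := by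
  unfold rho
  rw [Fin.sum_univ_two, smul_add]
  congr 2
  · rw [Measure.prod_dirac, mu_eq, Measure.map_map (by fun_prop) (measurable_rep t)]
    rfl
  · rw [Measure.dirac_prod, mu_eq, Measure.map_map (by fun_prop) (measurable_rep t)]
    rfl

/-- **Theorem.** For every real `t`, the space `L²(ρ_t)` admits an exponential Riesz basis; one
and the same set `Λ` works for all `t`. -/
theorem result : ∃ Λ : Set (ℝ × ℝ), Λ.Countable ∧ ∀ t : ℝ, IsRieszBasis ex (rho t) Λ := by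
  refine ⟨range lam, countable_range _, ?_⟩
  intro t
  apply riesz_of_data ex (ga t) lam (fun _ => 1) (T t) (rho t) measurable_ex (measurable_ga t)
    (fun _ => 1 / 2) (fun _ => by norm_num) (rho_eq t) lam_injective (fun _ => by simp)
    (1 / 60000) 6 (by norm_num) (lower t) (upper t) (surj t)
  intro j n i
  have hfo : ∀ (k : ℤ) (x : Cir), (fourier k x : ℂ) = cexp ((2 * π * (k * rep t x) : ℝ) * I) :=
    fun k x => fourier_eq t k x
  have hbas : ((fourierLp 2 n : H) : Cir → ℂ) =ᵐ[hm] fourier n := coe_fourierLp n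
  have h6 : (C6 (fourierLp 2 n : H) : Cir → ℂ) =ᵐ[hm] fun x => fourier (n * 6) x :=
    coe_comp_fourierLp 6 (by norm_num) n
  have h2 : (C2 (fourierLp 2 n : H) : Cir → ℂ) =ᵐ[hm] fun x => fourier (n * 2) x :=
    coe_comp_fourierLp 2 (by norm_num) n
  have hv : (mul (Bv t) (C2 (fourierLp 2 n : H)) : Cir → ℂ) =ᵐ[hm]
      fun x => v t x * fourier (n * 2) x := by
    filter_upwards [coe_mul (Bv t) (C2 (fourierLp 2 n : H)), h2] with x k1 k2
    rw [k1, k2]
    rfl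
  have hu : (mul (Bu t) (C2 (fourierLp 2 n : H)) : Cir → ℂ) =ᵐ[hm]
      fun x => u t x * fourier (n * 2) x := by
    filter_upwards [coe_mul (Bu t) (C2 (fourierLp 2 n : H)), h2] with x k1 k2
    rw [k1, k2]
    rfl
  fin_cases j
  · fin_cases i
    · have e : T t (Pi.single 0 (fourierLp 2 n)) 0 = (fourierLp 2 n : H) := by simp [T0]
      filter_upwards [hbas] with x k1
      show ex (lam (0, n)) (ga t 0 x) = 1 * (T t (Pi.single 0 (fourierLp 2 n)) 0 : Cir → ℂ) x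
      rw [e, k1, one_mul, hfo]
      simp [ex, lam, ga]
    · have e : T t (Pi.single 0 (fourierLp 2 n)) 1 = (fourierLp 2 n : H) := by simp [T1]
      filter_upwards [hbas] with x k1
      show ex (lam (0, n)) (ga t 1 x) = 1 * (T t (Pi.single 0 (fourierLp 2 n)) 1 : Cir → ℂ) x
      rw [e, k1, one_mul, hfo]
      simp [ex, lam, ga]
  · fin_cases i
    · have e : T t (Pi.single 1 (fourierLp 2 n)) 0 = mul (Bv t) (C2 (fourierLp 2 n : H)) := by
        simp [T0]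
      filter_upwards [hv] with x k1
      show ex (lam (1, n)) (ga t 0 x) = 1 * (T t (Pi.single 1 (fourierLp 2 n)) 0 : Cir → ℂ) x
      rw [e, k1, one_mul, hfo]
      unfold v ee ex lam ga
      simp only [Matrix.cons_val_zero, Matrix.cons_val_one]
      rw [← Complex.exp_add]
      congr 1
      push_cast
      ring
    · have e : T t (Pi.single 1 (fourierLp 2 n)) 1 = C6 (fourierLp 2 n : H) := by
        simp [T1]
      filter_upwards [h6] with x k1
      show ex (lam (1, n)) (ga t 1 x) = 1 * (T t (Pi.single 1 (fourierLp 2 n)) 1 : Cir → ℂ) x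
      rw [e, k1, one_mul, hfo]
      unfold ex lam ga
      simp only [Matrix.cons_val_zero, Matrix.cons_val_one]
      congr 1
      push_cast
      ring
  · fin_cases i
    · have e : T t (Pi.single 2 (fourierLp 2 n)) 0 = C6 (fourierLp 2 n : H) := by
        simp [T0]
      filter_upwards [h6] with x k1
      show ex (lam (2, n)) (ga t 0 x) = 1 * (T t (Pi.single 2 (fourierLp 2 n)) 0 : Cir → ℂ) x
      rw [e, k1, one_mul, hfo]
      unfold ex lam ga
      simp only [Matrix.cons_val_zero, Matrix.cons_val]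
      congr 1
      push_cast
      ring
    · have e : T t (Pi.single 2 (fourierLp 2 n)) 1 = mul (Bu t) (C2 (fourierLp 2 n : H)) := by
        simp [T1]
      filter_upwards [hu] with x k1
      show ex (lam (2, n)) (ga t 1 x) = 1 * (T t (Pi.single 2 (fourierLp 2 n)) 1 : Cir → ℂ) x
      rw [e, k1, one_mul, hfo]
      unfold u ee ex lam ga
      simp only [Matrix.cons_val, Matrix.cons_val_one]
      rw [← Complex.exp_add]
      congr 1
      push_cast
      ring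

end Pool.Agent.Results.MP_1d4ba1_an.OverlappingRieszBasis
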